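import Pool.Agent.Helper92.BO.GoalsG

set_option autoImplicit false

namespace Pool.Agent.Helper15.BO

open MeasureTheory Filter Topology Function Set
open Pool.Agent.Helper92.BO

theorem meas_psiR (l : ℝ) : Measurable (psiR l) := by
  unfold psiR
  exact Measurable.ite (measurableSet_le measurable_id measurable_const) measurable_const
    measurable_const

section core

variable {l : ℝ} {W F g : ℝ → ℝ}

theorem by_parts (hg : IntervalIntegrable g volume 0 1)
    (hch : ∀ x' x, 0 ≤ x' → x' ≤ x → x ≤ 1 → W x' - W x = ∫ s in x'..x, g s) {a y : ℝ}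
    (ha : 0 ≤ a) (hay : a ≤ y) (hy : y ≤ 1) :
    ∫ x in a..y, ((1 - 2 * x) * W x - x * (1 - x) * g x) =
      y * (1 - y) * W y - a * (1 - a) * W a := by
  have hg' : IntervalIntegrable g volume a y := by
    apply hg.mono_set
    rw [uIcc_of_le hay, uIcc_of_le zero_le_one]
    exact Icc_subset_Icc ha hy
  set P : ℝ → ℝ := fun x => W a + ∫ s in a..x, - g s with hP
  have hPW : ∀ x, a ≤ x → x ≤ y → P x = W x := by
    intro x h1 h2
    have := hch a x ha h1 (h2.trans hy)
    simp only [hP]
    rw [intervalIntegral.integral_neg]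
    linarith
  have hf : AbsolutelyContinuousOnInterval (fun x : ℝ => x * (1 - x)) a y := by
    apply ContDiffOn.absolutelyContinuousOnInterval
    apply ContDiff.contDiffOn
    fun_prop
  have hP0 : AbsolutelyContinuousOnInterval (fun x => ∫ s in a..x, - g s) a y :=
    (hg'.neg).absolutelyContinuousOnInterval_intervalIntegral left_mem_uIcc
  have hc0 : AbsolutelyContinuousOnInterval (fun _ : ℝ => W a) a y := by
    apply ContDiffOn.absolutelyContinuousOnInterval
    exact contDiffOn_const
  have hPac : AbsolutelyContinuousOnInterval P a y := hc0.add hP0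
  have key := AbsolutelyContinuousOnInterval.integral_deriv_mul_eq_sub hf hPac
  rw [hPW y hay le_rfl, hPW a le_rfl hay] at key
  rw [← key]
  apply intervalIntegral.integral_congr_ae
  filter_upwards [hg'.ae_hasDerivAt_integral] with x hx hxm
  have hxI : x ∈ uIcc a y := uIoc_subset_uIcc hxm
  have hd := hx hxI a left_mem_uIcc
  have hd2 : HasDerivAt P (- g x) x := by
    have h3 : HasDerivAt (fun x => W a + - ∫ s in a..x, g s) (0 + - g x) x :=
      (hasDerivAt_const x (W a)).add hd.neg
    have h4 : P = fun x => W a + - ∫ s in a..x, g s := by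
      funext z; simp only [hP]; rw [intervalIntegral.integral_neg]
    rw [h4]; simpa using h3
  have hd1 : HasDerivAt (fun x : ℝ => x * (1 - x)) (1 - 2 * x) x := by
    have := (hasDerivAt_id' x).fun_mul ((hasDerivAt_id' x).const_sub 1)
    have e : (1 - 2 * x) = 1 * (1 - x) + x * (-1) := by ring
    rw [e]
    exact this
  rw [hd1.deriv, hd2.deriv]
  rw [uIcc_of_le hay] at hxI
  rw [hPW x hxI.1 hxI.2]
  ring

/-- The function `W * F` on `(0, 1)`. -/
theorem ii_WF (hg : IntervalIntegrable g volume 0 1)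
    (hF : ∀ x, 0 < x → x < 1 → W x * F x = x * (1 - x) * g x) :
    IntervalIntegrable (fun x => psiR l x * (W x * F x)) volume 0 1 := by
  have h1 : IntervalIntegrable (fun x => psiR l x * (x * (1 - x) * g x)) volume 0 1 := by
    have h2 : IntervalIntegrable (fun x => x * (1 - x) * g x) volume 0 1 :=
      hg.continuousOn_mul (by fun_prop)
    rw [intervalIntegrable_iff] at h2 ⊢
    refine Integrable.bdd_mul (c := max 1 |l|) h2 (meas_psiR l).aestronglyMeasurable ?_
    filter_upwards with x
    unfold psiR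
    split_ifs
    · simp
    · simp
  refine h1.congr_ae ?_
  have h0 : ∀ᵐ x : ℝ ∂volume, x ≠ 1 := by simp [ae_iff, measure_singleton]
  rw [Filter.EventuallyEq, ae_restrict_iff' measurableSet_uIoc]
  filter_upwards [h0] with x hx hxm
  rw [uIoc_of_le zero_le_one] at hxm
  rw [hF x hxm.1 (lt_of_le_of_ne hxm.2 hx)]

theorem core (hW : ContinuousOn W (Icc 0 1)) (hg : IntervalIntegrable g volume 0 1)
    (hch : ∀ x' x, 0 ≤ x' → x' ≤ x → x ≤ 1 → W x' - W x = ∫ s in x'..x, g s)
    (hF : ∀ x, 0 < x → x < 1 → W x * F x = x * (1 - x) * g x)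
    (hWF : IntervalIntegrable (fun x => W x * F x) volume 0 1)
    {y : ℝ} (hy0 : 0 < y) (hy1 : y ≤ 1) (hy : y ≠ 1 / 2) :
    y * (1 - y) * rho l W y = (∫ x in (0:ℝ)..y, rho l W x * ((1 - 2 * x) - F x)) -
      (if 1 / 2 < y then (1 - l) / 4 * W (1 / 2) else 0) := by
  have hbp : ∀ a b : ℝ, 0 ≤ a → a ≤ b → b ≤ 1 → ∫ x in a..b, W x * ((1 - 2 * x) - F x) =
      b * (1 - b) * W b - a * (1 - a) * W a := by
    intro a b h1 h2 h3
    rw [← by_parts hg hch h1 h2 h3]
    apply intervalIntegral.integral_congr_ae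
    have h0 : ∀ᵐ x : ℝ ∂volume, x ≠ 1 := by simp [ae_iff, measure_singleton]
    filter_upwards [h0] with x hx hxm
    rw [uIoc_of_le h2] at hxm
    have := hF x (lt_of_le_of_lt h1 hxm.1) (lt_of_le_of_ne (hxm.2.trans h3) hx)
    linear_combination - this
  have hI : IntervalIntegrable (fun x => W x * ((1 - 2 * x) - F x)) volume 0 1 := by
    have h1 : IntervalIntegrable (fun x => W x * (1 - 2 * x)) volume 0 1 := by
      apply ContinuousOn.intervalIntegrable
      rw [uIcc_of_le zero_le_one]
      exact hW.mul (by fun_prop)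
    have := h1.sub hWF
    refine this.congr_ae ?_
    filter_upwards with x
    ring
  rcases lt_or_gt_of_ne hy with h | h
  · rw [if_neg (by linarith)]
    have h1 : ∫ x in (0:ℝ)..y, rho l W x * ((1 - 2 * x) - F x) =
        ∫ x in (0:ℝ)..y, W x * ((1 - 2 * x) - F x) := by
      apply intervalIntegral.integral_congr
      intro x hx
      rw [uIcc_of_le hy0.le] at hx
      simp only [rho, psiR]
      rw [if_pos (by linarith [hx.2])]
      ring
    rw [h1, hbp 0 y le_rfl hy0.le hy1]
    simp only [rho, psiR]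
    rw [if_pos h.le]
    ring
  · rw [if_pos h]
    have hs1 : IntervalIntegrable (fun x => rho l W x * ((1 - 2 * x) - F x)) volume 0 (1/2) := by
      have h3 : IntervalIntegrable (fun x => W x * ((1 - 2 * x) - F x)) volume 0 (1/2) := by
        apply hI.mono_set
        rw [uIcc_of_le (by norm_num), uIcc_of_le zero_le_one]
        exact Icc_subset_Icc le_rfl (by norm_num)
      refine h3.congr_ae ?_
      rw [Filter.EventuallyEq, ae_restrict_iff' measurableSet_uIoc]
      filter_upwards with x hx
      rw [uIoc_of_le (by norm_num)] at hx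
      simp only [rho, psiR]
      rw [if_pos hx.2]; ring
    have hs2 : IntervalIntegrable (fun x => rho l W x * ((1 - 2 * x) - F x)) volume (1/2) y := by
      have h3 : IntervalIntegrable (fun x => l * (W x * ((1 - 2 * x) - F x))) volume (1/2) y := by
        apply IntervalIntegrable.const_mul
        apply hI.mono_set
        rw [uIcc_of_le h.le, uIcc_of_le zero_le_one]
        exact Icc_subset_Icc (by norm_num) hy1
      refine h3.congr_ae ?_
      rw [Filter.EventuallyEq, ae_restrict_iff' measurableSet_uIoc]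
      filter_upwards with x hx
      rw [uIoc_of_le h.le] at hx
      simp only [rho, psiR]
      rw [if_neg (not_le.2 hx.1)]; ring
    rw [← intervalIntegral.integral_add_adjacent_intervals hs1 hs2]
    have e1 : ∫ x in (0:ℝ)..(1/2), rho l W x * ((1 - 2 * x) - F x) =
        ∫ x in (0:ℝ)..(1/2), W x * ((1 - 2 * x) - F x) := by
      apply intervalIntegral.integral_congr
      intro x hx
      rw [uIcc_of_le (by norm_num)] at hx
      simp only [rho, psiR]
      rw [if_pos hx.2]
      ring
    have e2 : ∫ x in (1/2:ℝ)..y, rho l W x * ((1 - 2 * x) - F x) =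
        ∫ x in (1/2:ℝ)..y, l * (W x * ((1 - 2 * x) - F x)) := by
      apply intervalIntegral.integral_congr_ae
      filter_upwards with x hx
      rw [uIoc_of_le h.le] at hx
      simp only [rho, psiR]
      rw [if_neg (not_le.2 hx.1)]
      ring
    rw [e1, e2, intervalIntegral.integral_const_mul, hbp 0 (1/2) le_rfl (by norm_num) (by norm_num),
      hbp (1/2) y (by norm_num) h.le hy1]
    simp only [rho, psiR]
    rw [if_neg (not_le.2 h)]
    ring

theorem core2 (hW : ContinuousOn W (Icc 0 1)) (hg : IntervalIntegrable g volume 0 1)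
    (hch : ∀ x' x, 0 ≤ x' → x' ≤ x → x ≤ 1 → W x' - W x = ∫ s in x'..x, g s)
    (hF : ∀ x, 0 < x → x < 1 → W x * F x = x * (1 - x) * g x)
    (hρ : IntervalIntegrable (rho l W) volume 0 1)
    {y' y : ℝ} (hy0 : 0 < y') (hyy : y' < y) (hy1 : y ≤ 1) (hy' : y' ≠ 1 / 2) (hy : y ≠ 1 / 2)
    (hZ' : Zf l W y' ≠ 0) (hZ : Zf l W y ≠ 0) :
    Mf l W y' y * (Zf l W y' * Zf l W y) = Sf l W y' y + Cf l W F y' y := by
  have hWF0 := ii_WF (l := 1) hg hF
  have hWF : IntervalIntegrable (fun x => W x * F x) volume 0 1 := by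
    refine hWF0.congr_ae ?_
    filter_upwards with x
    simp [psiR]
  have hρF : IntervalIntegrable (fun x => rho l W x * F x) volume 0 1 := by
    refine (ii_WF (l := l) hg hF).congr_ae ?_
    filter_upwards with x
    simp only [rho]; ring
  have hxρ : IntervalIntegrable (fun x => x * rho l W x) volume 0 1 :=
    hρ.continuousOn_mul (by fun_prop)
  have sub : ∀ {f : ℝ → ℝ}, IntervalIntegrable f volume 0 1 → ∀ a b : ℝ, 0 ≤ a → a ≤ b → b ≤ 1 →
      IntervalIntegrable f volume a b := by
    intro f hf a b h1 h2 h3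
    apply hf.mono_set
    rw [uIcc_of_le h2, uIcc_of_le zero_le_one]
    exact Icc_subset_Icc h1 h3
  have c1 := core (l := l) hW hg hch hF hWF hy0 (hyy.le.trans hy1) hy'
  have c2 := core (l := l) hW hg hch hF hWF (hy0.trans hyy) hy1 hy
  have hy0' : (0:ℝ) ≤ y := (hy0.trans hyy).le
  have hy1' : y' ≤ 1 := hyy.le.trans hy1
  -- names
  obtain ⟨B', hB'⟩ : ∃ B', B' = ∫ x in (0:ℝ)..y', x * rho l W x := ⟨_, rfl⟩
  obtain ⟨B, hB⟩ : ∃ B, B = ∫ x in (0:ℝ)..y, x * rho l W x := ⟨_, rfl⟩
  obtain ⟨C', hC'⟩ : ∃ C', C' = ∫ x in (0:ℝ)..y', rho l W x * F x := ⟨_, rfl⟩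
  obtain ⟨C, hC⟩ : ∃ C, C = ∫ x in (0:ℝ)..y, rho l W x * F x := ⟨_, rfl⟩
  have hlin : ∀ z : ℝ, 0 ≤ z → z ≤ 1 → ∫ x in (0:ℝ)..z, rho l W x * ((1 - 2 * x) - F x) =
      Zf l W z - 2 * (∫ x in (0:ℝ)..z, x * rho l W x) - ∫ x in (0:ℝ)..z, rho l W x * F x := by
    intro z h1 h2
    rw [← intervalIntegral.integral_const_mul, Zf, ← intervalIntegral.integral_sub,
      ← intervalIntegral.integral_sub]
    · apply intervalIntegral.integral_congr
      intro x _
      simp only
      ring
    · exact (sub hρ 0 z le_rfl h1 h2).sub ((sub hxρ 0 z le_rfl h1 h2).const_mul 2)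
    · exact sub hρF 0 z le_rfl h1 h2
    · exact sub hρ 0 z le_rfl h1 h2
    · exact (sub hxρ 0 z le_rfl h1 h2).const_mul 2
  rw [hlin y' hy0.le hy1', ← hB', ← hC'] at c1
  rw [hlin y hy0' hy1, ← hB, ← hC] at c2
  have dif : ∀ {f : ℝ → ℝ}, IntervalIntegrable f volume 0 1 →
      ∫ x in y'..y, f x = (∫ x in (0:ℝ)..y, f x) - ∫ x in (0:ℝ)..y', f x := by
    intro f hf
    rw [intervalIntegral.integral_interval_sub_left (sub hf 0 y le_rfl hy0' hy1)
      (sub hf 0 y' le_rfl hy0.le hy1')]
  have s1 : (∫ x in y'..y, ∫ x' in (0 : ℝ)..y', rho l W x * rho l W x' * (2 * (x - x'))) =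
      2 * (B - B') * Zf l W y' - 2 * B' * (Zf l W y - Zf l W y') := by
    have inner : ∀ x : ℝ, (∫ x' in (0 : ℝ)..y', rho l W x * rho l W x' * (2 * (x - x'))) =
        2 * Zf l W y' * (x * rho l W x) - 2 * B' * rho l W x := by
      intro x
      have : (∫ x' in (0 : ℝ)..y', rho l W x * rho l W x' * (2 * (x - x'))) =
          ∫ x' in (0 : ℝ)..y', ((2 * x * rho l W x) * rho l W x' -
            (2 * rho l W x) * (x' * rho l W x')) := by
        apply intervalIntegral.integral_congr
        intro x' _
        simp only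
        ring
      rw [this, intervalIntegral.integral_sub ((sub hρ 0 y' le_rfl hy0.le hy1').const_mul _)
        ((sub hxρ 0 y' le_rfl hy0.le hy1').const_mul _), intervalIntegral.integral_const_mul,
        intervalIntegral.integral_const_mul, ← hB', Zf]
      ring
    simp only [inner]
    rw [intervalIntegral.integral_sub ((sub hxρ y' y hy0.le hyy.le hy1).const_mul _)
        ((sub hρ y' y hy0.le hyy.le hy1).const_mul _), intervalIntegral.integral_const_mul,
        intervalIntegral.integral_const_mul, dif hxρ, dif hρ, ← hB', ← hB, Zf, Zf]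
    ring
  have s2 : (∫ x in y'..y, ∫ x' in (0 : ℝ)..y', rho l W x * rho l W x' * (F x - F x')) =
      (C - C') * Zf l W y' - C' * (Zf l W y - Zf l W y') := by
    have inner : ∀ x : ℝ, (∫ x' in (0 : ℝ)..y', rho l W x * rho l W x' * (F x - F x')) =
        Zf l W y' * (rho l W x * F x) - C' * rho l W x := by
      intro x
      have : (∫ x' in (0 : ℝ)..y', rho l W x * rho l W x' * (F x - F x')) =
          ∫ x' in (0 : ℝ)..y', ((rho l W x * F x) * rho l W x' -
            (rho l W x) * (rho l W x' * F x')) := by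
        apply intervalIntegral.integral_congr
        intro x' _
        simp only
        ring
      rw [this, intervalIntegral.integral_sub ((sub hρ 0 y' le_rfl hy0.le hy1').const_mul _)
        ((sub hρF 0 y' le_rfl hy0.le hy1').const_mul _), intervalIntegral.integral_const_mul,
        intervalIntegral.integral_const_mul, ← hC', Zf]
      ring
    simp only [inner]
    rw [intervalIntegral.integral_sub ((sub hρF y' y hy0.le hyy.le hy1).const_mul _)
        ((sub hρ y' y hy0.le hyy.le hy1).const_mul _), intervalIntegral.integral_const_mul,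
        intervalIntegral.integral_const_mul, dif hρF, dif hρ, ← hC', ← hC, Zf, Zf]
    ring
  have m : Mf l W y' y * (Zf l W y' * Zf l W y) =
      y' * (1 - y') * rho l W y' * Zf l W y - y * (1 - y) * rho l W y * Zf l W y' := by
    unfold Mf
    field_simp
  rw [m, c1, c2, Sf, Cf, s1, s2]
  split_ifs <;> ring

end core

open Classical in
theorem mid (hchn : ChnStmt) (hcnt : CntStmt) (hpos : PosStmt) (hphb : PhbStmt) (htmm : TmmStmt) :
    MidStmt := by
  intro G l L v b hl0 hl1 hL hb y' y hy0 hyy hy1 hy' hy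
  have hb01 : In01 L b := fun u hu => ⟨(hb u hu).1.le, (hb u hu).2⟩
  have hc1 : ∀ x : ℝ, 0 ≤ x → x < 1 → Pos1 L (cut G v (1 - x) b) := by
    intro x h0 h1 u hu
    have := hb u hu
    unfold cut
    split_ifs
    · exact ⟨lt_min this.1 (by linarith), (min_le_left _ _).trans this.2⟩
    · exact this
  have hcont := (hcnt G 1 l L v b hb01).2.1
  have hρ0 := (hcnt G 1 l L v b hb01).2.2.2
  have hWpos : ∀ x : ℝ, 0 ≤ x → x < 1 → 0 < ZR G l L (cut G v (1 - x) b) := fun x h0 h1 =>
    (hpos G l L _ hl0 hl1).2 (hc1 x h0 h1)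
  have hZpos : ∀ z : ℝ, 0 < z → z ≤ 1 → 0 < Zf l (fun x => ZR G l L (cut G v (1 - x) b)) z := by
    intro z h0 h1
    unfold Zf
    apply intervalIntegral.intervalIntegral_pos_of_pos_on
    · apply hρ0.mono_set
      rw [uIcc_of_le h0.le, uIcc_of_le zero_le_one]
      exact Icc_subset_Icc le_rfl h1
    · intro x hx
      have hx1 : x < 1 := hx.2.trans_le h1
      have : 0 < psiR l x := by
        unfold psiR; split_ifs
        · norm_num
        · exact hl0
      exact mul_pos this (hWpos x hx.1.le hx1)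
    · exact h0
  -- the bounds for the derivative
  have hGc0 : ∀ s : ℝ, 0 ≤ s → s < 1 → 0 ≤ Gc G l L v b s ∧ Gc G l L v b s ≤ L.length := by
    intro s h0 h1
    unfold Gc
    constructor
    · apply List.sum_nonneg
      intro t ht
      rw [List.mem_map] at ht
      obtain ⟨u, hu, rfl⟩ := ht
      split_ifs
      · exact (hphb G l L u _ hl0 hl1 hL hu (hc1 s h0 h1)).2.2.1
      · exact le_rfl
    · have : ∀ t ∈ L.map (fun u => if G.Adj v u ∧ 1 - s < b u then
          Zd G l L u (cut G v (1 - s) b) else 0), t ≤ 1 := by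
        intro t ht
        rw [List.mem_map] at ht
        obtain ⟨u, hu, rfl⟩ := ht
        split_ifs
        · exact (hphb G l L u _ hl0 hl1 hL hu (hc1 s h0 h1)).2.2.2
        · exact zero_le_one
      have h2 := List.sum_le_card_nsmul _ _ this
      simpa using h2
  have hGcm : Measurable fun s : ℝ => Gc G l L v b s := (htmm G l L v b).2.1
  have hGci : IntervalIntegrable (fun s => Gc G l L v b s) volume 0 1 := by
    rw [intervalIntegrable_iff, uIoc_of_le zero_le_one]
    refine Measure.integrableOn_of_bounded (M := L.length) (by simp) hGcm.aestronglyMeasurable ?_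
    have h0 : ∀ᵐ x : ℝ ∂volume, x ≠ 1 := by simp [ae_iff, measure_singleton]
    rw [ae_restrict_iff' measurableSet_Ioc]
    filter_upwards [h0] with x hx hxm
    have h3 := hGc0 x hxm.1.le (lt_of_le_of_ne hxm.2 hx)
    rw [Real.norm_of_nonneg h3.1]
    exact h3.2
  have hF : ∀ x, 0 < x → x < 1 → ZR G l L (cut G v (1 - x) b) * Fc G l L v b x =
      x * (1 - x) * Gc G l L v b x := by
    intro x h0 h1
    unfold Fc Gc
    rw [← List.sum_map_mul_left, ← List.sum_map_mul_left]
    congr 1
    apply List.map_congr_left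
    intro u _
    split_ifs with h
    · have hcu : cut G v (1 - x) b u = 1 - x := by
        unfold cut
        rw [if_pos h.1]
        exact min_eq_right h.2.le
      unfold Ph
      rw [hcu]
      have := (hWpos x h0.le h1).ne'
      field_simp
      ring
    · simp
  exact core2 (l := l) (W := fun x => ZR G l L (cut G v (1 - x) b)) (F := Fc G l L v b)
    (g := fun s => Gc G l L v b s) hcont hGci
    (fun x' x h1 h2 h3 => hchn G l L v b hl0 hl1 hL hb x' x h1 h2 h3) hF hρ0 hy0 hyy hy1 hy' hy
    (hZpos y' hy0 (hyy.le.trans hy1)).ne' (hZpos y (hy0.trans hyy) hy1).ne'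

end Pool.Agent.Helper15.BO
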